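import Pool.Agent.Q177.TC.Thm

/-!
# Total colourings of distance-3 matchings extend in bipartite graphs, under mild conditions

`G` is bipartite, `A` is one of the two classes (either of them), all degrees are at most `D` and
`H` is a distance-3 matching in `G`. `TotalColouring A E k g f`: `g` and `f` colour the vertices in
`A` and the edges in `E` with `k` colours like in a total colouring. `AllExtend G H k`: every
total-`k`-colouring of the subgraph `H` extends to a total-`k`-colouring of `G`. `Extends G H k g f`:
the total colouring `g`, `f` of `H` extends to a total-`k`-colouring of `G`.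
-/

set_option autoImplicit false

namespace Pool.Agent.Results.MP_db9399_co.BipartiteGraphs

open Pool.Agent.Q241.DM Pool.Agent.Q177.TC

/-- Let `G` be a finite bipartite graph with all degrees at most `D`, `A` one class of the
bipartition, and `H` a distance-3 matching in `G`.
(1) If `H` is contained in a matching of `G` which covers all vertices of degree `D`, then every
total-`(D+2)`-colouring of `H` extends to `G`.
(2) The same if `H` has at most `(D + 1) / 2` edges.
Now let a total-`(D+2)`-colouring of `H` be given.
(3) It extends if there is a colour `c₀`, not used on the vertices of `H`, such that no edge of `G`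
joins a neighbour `w ≠ v` of `u` to a neighbour `z ≠ u'` of `v'`, for any two (equal or different)
edges `uv`, `u'v'` of `H` of the same colour different from `c₀` (`u`, `u'` in `A`). In particular
it extends if all edges of `H` have the same colour, and also if no such edge of `G` exists for any
colour (take `c₀ = D + 2`).
(4) It extends if all vertices of `H` in `A` have the same colour.
(5) It extends if there are a colour `α` which is not used on the vertices of `H` outside `A` and a
matching `M` of `G` which contains exactly those edges of `H` which have the colour `α`, and which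
covers all vertices of degree `D` which are not in `H` or not in `A`.
(6) It extends if `H` has fewer than `D` vertices of degree `D` outside `A` and some colour is used
neither on the edges of `H` nor on the vertices of `H` outside `A`.
(7) It extends if `G` has a proper edge colouring `ψ` with `D` colours such that no edge of `G`
joins a neighbour `w` of `u` with `ψ (uv) < ψ (uw)` to a neighbour `z` of `v'` with
`ψ (v'z) < ψ (u'v')`, for any two edges `uv`, `u'v'` of `H` of the same colour (`u`, `u'` in `A`). -/
theorem result :
    ∀ (V : Type) [Fintype V] (G : SimpleGraph V) (A : Set V) (H : G.Subgraph) (D : ℕ),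
      (∀ u v, G.Adj u v → (u ∈ A ↔ v ∉ A)) → (∀ v, (G.neighborSet v).ncard ≤ D) →
      DistanceThreeMatching G H →
      (∀ M : G.Subgraph, M.IsMatching → (∀ v, (G.neighborSet v).ncard = D → v ∈ M.verts) →
        H ≤ M → AllExtend G H (D + 2)) ∧
      (2 * H.edgeSet.ncard ≤ D + 1 → AllExtend G H (D + 2)) ∧
      ∀ (g : V → ℕ) (f : Sym2 V → ℕ), TotalColouring H.verts H.edgeSet (D + 2) g f →
        (∀ c₀ : ℕ, (∀ v ∈ H.verts, g v ≠ c₀) →
          (∀ u v u' v' w z, H.Adj u v → u ∈ A → H.Adj u' v' → u' ∈ A →
            f s(u, v) = f s(u', v') → f s(u, v) ≠ c₀ → G.Adj u w → w ≠ v → G.Adj v' z → z ≠ u' →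
            ¬ G.Adj w z) → Extends G H (D + 2) g f) ∧
        ((∀ u ∈ H.verts, ∀ u' ∈ H.verts, u ∈ A → u' ∈ A → g u = g u') →
          Extends G H (D + 2) g f) ∧
        (∀ α < D + 2, (∀ v ∈ H.verts, v ∉ A → g v ≠ α) →
          (∀ M : G.Subgraph, M.IsMatching →
            (∀ u v, H.Adj u v → (M.Adj u v ↔ f s(u, v) = α)) →
            (∀ v, v ∉ H.verts ∨ v ∉ A → (G.neighborSet v).ncard = D → v ∈ M.verts) →
            Extends G H (D + 2) g f) ∧
          ({v | v ∈ H.verts ∧ v ∉ A ∧ (G.neighborSet v).ncard = D}.ncard < D →
            (∀ e ∈ H.edgeSet, f e ≠ α) → Extends G H (D + 2) g f)) ∧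
        (∀ ψ : Sym2 V → ℕ, (∀ e ∈ G.edgeSet, ψ e < D) →
          (∀ v a b, G.Adj v a → G.Adj v b → a ≠ b → ψ s(v, a) ≠ ψ s(v, b)) →
          (∀ u v u' v' w z, H.Adj u v → u ∈ A → H.Adj u' v' → u' ∈ A →
            f s(u, v) = f s(u', v') → G.Adj u w → G.Adj v' z → ψ s(u, v) < ψ s(u, w) →
            ψ s(v', z) < ψ s(u', v') → ¬ G.Adj w z) → Extends G H (D + 2) g f) := by
  intro V _ G A H D hA hD hH
  refine ⟨fun M hM hMD hHM => inside hA D hD hH M hM hMD hHM,
    fun h => fewEdges hA D hD hH h, fun g f hcol => ⟨?_, ?_, ?_, ?_⟩⟩
  · intro c h1 h2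
    exact bad hA D hD hH g f hcol c h1 h2
  · intro h
    exact mono hA D hD hH g f hcol h
  · intro α hα hgα
    refine ⟨fun M hM hMH hMD => ?_, fun h1 h2 => ?_⟩
    · exact starM hA D hD hH g f hcol α hα hgα M hM hMH (fun v hv h => hMD v (Or.inl hv) h)
        (fun v _ hv h => hMD v (Or.inr hv) h)
    · exact few hA D hD hH h1 g f hcol α hα hgα h2
  · intro ψ h1 h2 h3
    exact crit hA D hD hH ψ h1 h2 g f hcol h3

end Pool.Agent.Results.MP_db9399_co.BipartiteGraphs
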