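import Pool.Agent.Q251.TE.Blow

/-!
# Extending total colourings from distance-3 matchings in large even blow-ups
-/

set_option autoImplicit false

namespace Pool.Agent.Results.MP_db9399_co.LargeBlowUps

open SimpleGraph

/-- A total colouring of the vertices in `A` and the edges in `E` with `k` colours. -/
def TotalColouring {V : Type} (A : Set V) (E : Set (Sym2 V)) (k : ℕ) (g : V → ℕ)
    (f : Sym2 V → ℕ) : Prop :=
  (∀ v ∈ A, g v < k) ∧ (∀ e ∈ E, f e < k) ∧
  (∀ u ∈ A, ∀ v ∈ A, s(u, v) ∈ E → g u ≠ g v) ∧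
  (∀ e ∈ E, ∀ e' ∈ E, e ≠ e' → (∃ v, v ∈ e ∧ v ∈ e') → f e ≠ f e') ∧
  (∀ v ∈ A, ∀ e ∈ E, v ∈ e → g v ≠ f e)

/-- Every total colouring of the subgraph `H` with `k` colours extends to a total colouring of `G`
with `k` colours. -/
def AllExtend {V : Type} (G : SimpleGraph V) (H : G.Subgraph) (k : ℕ) : Prop :=
  ∀ (g : V → ℕ) (f : Sym2 V → ℕ), TotalColouring H.verts H.edgeSet k g f →
    ∃ (g' : V → ℕ) (f' : Sym2 V → ℕ), TotalColouring Set.univ G.edgeSet k g' f' ∧
      (∀ v ∈ H.verts, g' v = g v) ∧ ∀ e ∈ H.edgeSet, f' e = f e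

/-- `H` is a matching in which vertices of different edges have distance at least `3` in `G`. -/
def DistanceThreeMatching {V : Type} (G : SimpleGraph V) (H : G.Subgraph) : Prop :=
  H.IsMatching ∧ ∀ u ∈ H.verts, ∀ v ∈ H.verts, u ≠ v → ¬ H.Adj u v → 3 ≤ G.edist u v

/-- The blow-up `G[m]`: every vertex `v` is replaced by `m` independent vertices `(v, i)`, and
`(v, i)`, `(w, j)` are adjacent if and only if `v` and `w` are. -/
def blowUp {V : Type} (G : SimpleGraph V) (m : ℕ) : SimpleGraph (V × Fin m) := G.comap Prod.fst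

/-- **Distance-3 matchings in large even blow-ups.**
For every finite graph `G` with all degrees at most `D` there is `m₀` such that for all even
`m ≥ m₀` all degrees of `G[m]` are at most `D m` (the degree of `(v, i)` is `m` times the degree of
`v`), and for every distance-3 matching `H` of `G[m]` every total-`(D m + 2)`-colouring of `H`
extends to a total-`(D m + 2)`-colouring of `G[m]`. -/
theorem result (V : Type) [Finite V] (G : SimpleGraph V) (D : ℕ)
    (hdeg : ∀ v, (G.neighborSet v).ncard ≤ D) :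
    ∃ m₀ : ℕ, ∀ m, m₀ ≤ m → Even m →
      (∀ x, ((blowUp G m).neighborSet x).ncard = (G.neighborSet x.1).ncard * m) ∧
      ∀ H : (blowUp G m).Subgraph, DistanceThreeMatching (blowUp G m) H →
        AllExtend (blowUp G m) H (D * m + 2) := by
  obtain ⟨m₀, h⟩ := Pool.Agent.Q251.TE.main G D hdeg
  refine ⟨m₀, fun m hm he => ⟨fun x => ?_, fun H hH g f hgf => h m hm he H hH.1 hH.2 g f hgf⟩⟩
  have h1 : (blowUp G m).neighborSet x = G.neighborSet x.1 ×ˢ (Set.univ : Set (Fin m)) := by
    ext y
    simp [blowUp]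
  rw [h1, Set.ncard_prod, Set.ncard_univ, Nat.card_eq_fintype_card, Fintype.card_fin]

end Pool.Agent.Results.MP_db9399_co.LargeBlowUps
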