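import Pool.Agent.Q241.DM.SmallDegree

/-!
# Total colourings of distance-3 matchings extend in graphs of bounded maximum average degree

`TotalColouring A E k g f`: `g` and `f` colour the vertices in `A` and the edges in `E` with `k`
colours like in a total colouring. `AllExtend G H k`: every total-`k`-colouring of the subgraph `H`
extends to a total-`k`-colouring of `G`. `DistanceThreeMatching G H`: `H` is a distance-3 matching
in `G`. `MadLT G m`: every nonempty set `X` of vertices contains fewer than `m |X|` ordered pairs of
adjacent vertices. Every planar graph satisfies `MadLT G 6`, every triangle-free planar graph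
satisfies `MadLT G 4`.
-/

set_option autoImplicit false

namespace Pool.Agent.Results.MP_db9399_co.SmallMaximumDegree

open Pool.Agent.Q241.DM Pool.Agent.H162R2.Sparse

/-- (1) Let `G` be a finite graph with all degrees at most `D` and maximum average degree less than
`6` (for example a planar graph), and `H` a distance-3 matching in `G`. If `D ≥ 14`, then every
total-`k`-colouring of `H` extends to `G` for every `k ≥ D + 2`; if `D ≥ 18`, then for every
`k ≥ D + 1`.
(2) The same with maximum average degree less than `4` (for example, `G` planar and triangle-free),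
for `D ≥ 9` and `k ≥ D + 2`, and for `D ≥ 10` and `k ≥ D + 1`.
(3) More generally, let all degrees be at most `D`, the maximum average degree less than `m`, and
`H` an induced subgraph such that every vertex of `G` has at most `c` neighbours in `H`. If
`k ≥ D + 1`, `2 (m + c) ≤ k + 1` and `m + c + (m + D - k).choose 2 ≤ D`, then every
total-`k`-colouring of `H` extends to `G`. -/
theorem result :
    (∀ (V : Type) [Fintype V] (G : SimpleGraph V) (H : G.Subgraph) (D : ℕ),
      (∀ v, (G.neighborSet v).ncard ≤ D) → MadLT G 6 → DistanceThreeMatching G H →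
      (14 ≤ D → ∀ k : ℕ, D + 2 ≤ k → AllExtend G H k) ∧
      (18 ≤ D → ∀ k : ℕ, D + 1 ≤ k → AllExtend G H k)) ∧
    (∀ (V : Type) [Fintype V] (G : SimpleGraph V) (H : G.Subgraph) (D : ℕ),
      (∀ v, (G.neighborSet v).ncard ≤ D) → MadLT G 4 → DistanceThreeMatching G H →
      (9 ≤ D → ∀ k : ℕ, D + 2 ≤ k → AllExtend G H k) ∧
      (10 ≤ D → ∀ k : ℕ, D + 1 ≤ k → AllExtend G H k)) ∧
    (∀ (V : Type) [Fintype V] (G : SimpleGraph V) (H : G.Subgraph) (D k m c : ℕ),
      (∀ v, (G.neighborSet v).ncard ≤ D) → MadLT G m → H.IsInduced →
      (∀ v, (G.neighborSet v ∩ H.verts).ncard ≤ c) →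
      D + 1 ≤ k → 2 * (m + c) ≤ k + 1 → m + c + (m + D - k).choose 2 ≤ D →
      AllExtend G H k) := by
  classical
  have main : ∀ (V : Type) [Fintype V] (G : SimpleGraph V) (H : G.Subgraph) (D k m c : ℕ),
      (∀ v, (G.neighborSet v).ncard ≤ D) → MadLT G m → H.IsInduced →
      (∀ v, (G.neighborSet v ∩ H.verts).ncard ≤ c) →
      D + 1 ≤ k → 2 * (m + c) ≤ k + 1 → m + c + (m + D - k).choose 2 ≤ D →
      AllExtend G H k := by
    intro V _ G H D k m c hD hmad hind hc hDk hk hm g f hcol
    apply extend G H hind k g f hcol
    let W : Finset V := Finset.univ.filter (fun v => v ∈ H.verts)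
    have hW : ∀ v, v ∈ W ↔ v ∈ H.verts := by
      intro v
      simp [W]
    refine main_small D k m c hDk hk hm W (eL H.verts k f) (vL H.verts k g)
      (eL_symm H.verts k f) ?_ G (base G H hind k (by omega) g f hcol W hW) ?_ _ G rfl
      (fun _ _ h => h) ?_ hmad.dens ?_
    · intro v hv
      unfold vL
      rw [if_neg (fun h => hv ((hW v).2 h)), Finset.card_range]
    · intro u v _ hu
      unfold eL
      rw [if_neg (fun h => hu ((hW u).2 h.1)), Finset.card_range]
    · intro v
      rw [dg_eq_ncard]
      exact hD v
    · intro v
      have h1 : ((nb G v).filter (fun w => w ∈ W)).card = (G.neighborSet v ∩ H.verts).ncard := by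
        rw [← Set.ncard_coe_finset]
        congr 1
        ext w
        rw [Finset.mem_coe, Finset.mem_filter, mem_nb, hW, Set.mem_inter_iff,
          SimpleGraph.mem_neighborSet]
      rw [h1]
      exact hc v
  have hch : ∀ m D k i : ℕ, D + i ≤ k → (m + D - k).choose 2 ≤ (m - i).choose 2 := by
    intro m D k i h
    exact Nat.choose_le_choose 2 (by omega)
  refine ⟨?_, ?_, main⟩
  · intro V _ G H D hD hmad hH
    constructor
    · intro h14 k hk
      have h1 := hch 6 D k 2 hk
      have h2 : (6 - 2).choose 2 = 6 := by decide
      exact main V G H D k 6 2 hD hmad hH.isInduced hH.ncard_le (by omega) (by omega) (by omega)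
    · intro h18 k hk
      have h1 := hch 6 D k 1 hk
      have h2 : (6 - 1).choose 2 = 10 := by decide
      exact main V G H D k 6 2 hD hmad hH.isInduced hH.ncard_le (by omega) (by omega) (by omega)
  · intro V _ G H D hD hmad hH
    constructor
    · intro h9 k hk
      have h1 := hch 4 D k 2 hk
      have h2 : (4 - 2).choose 2 = 1 := by decide
      exact main V G H D k 4 2 hD hmad hH.isInduced hH.ncard_le (by omega) (by omega) (by omega)
    · intro h10 k hk
      have h1 := hch 4 D k 1 hk
      have h2 : (4 - 1).choose 2 = 3 := by decide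
      exact main V G H D k 4 2 hD hmad hH.isInduced hH.ncard_le (by omega) (by omega) (by omega)

end Pool.Agent.Results.MP_db9399_co.SmallMaximumDegree
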