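import Pool.Agent.Q241.DM.Lists

/-!
# Total colourings of distance-3 matchings extend in sparse graphs

`TotalColouring A E k g f`: `g` and `f` colour the vertices in `A` and the edges in `E` with `k`
colours like in a total colouring. `AllExtend G H k`: every total-`k`-colouring of the subgraph `H`
extends to a total-`k`-colouring of `G`. `DistanceThreeMatching G H`: `H` is a distance-3 matching
in `G`. `MadLE G a`: the maximum average degree of `G` is at most `a`. The proof is an adaptation of
the one for list total colourings of sparse graphs in `Pool.Agent.H162R2.Sparse`.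
-/

set_option autoImplicit false

namespace Pool.Agent.Results.MP_db9399_co.SparseGraphs

open Pool.Agent.Q241.DM Pool.Agent.H162R2.Sparse

/-- (1) Let `G` be a finite graph with all degrees at most `D` and maximum average degree at most
`a`, and `H` a distance-3 matching in `G`. If `34 (a + 2) (1 + log D) ≤ D`, then for every
`k ≥ D + 1` every total-`k`-colouring of `H` extends to `G`.
(2) More generally, let `H` be an induced subgraph such that every vertex of `G` has at most `c`
neighbours in `H`. If `34 (a + c) (1 + log D) ≤ D`, then for every `k ≥ D + 1` every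
total-`k`-colouring of `H` extends to `G`. -/
theorem result :
    (∀ (V : Type) [Fintype V] (G : SimpleGraph V) (H : G.Subgraph) (D : ℕ) (a : ℝ),
      (∀ v, (G.neighborSet v).ncard ≤ D) → MadLE G a → DistanceThreeMatching G H →
      34 * (a + 2) * (1 + Real.log D) ≤ D → ∀ k : ℕ, D + 1 ≤ k → AllExtend G H k) ∧
    (∀ (V : Type) [Fintype V] (G : SimpleGraph V) (H : G.Subgraph) (D c : ℕ) (a : ℝ),
      (∀ v, (G.neighborSet v).ncard ≤ D) → MadLE G a → H.IsInduced →
      (∀ v, (G.neighborSet v ∩ H.verts).ncard ≤ c) →
      34 * (a + c) * (1 + Real.log D) ≤ D → ∀ k : ℕ, D + 1 ≤ k → AllExtend G H k) := by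
  classical
  have main : ∀ (V : Type) [Fintype V] (G : SimpleGraph V) (H : G.Subgraph) (D c : ℕ) (a : ℝ),
      (∀ v, (G.neighborSet v).ncard ≤ D) → MadLE G a → H.IsInduced →
      (∀ v, (G.neighborSet v ∩ H.verts).ncard ≤ c) →
      34 * (a + c) * (1 + Real.log D) ≤ D → ∀ k : ℕ, D + 1 ≤ k → AllExtend G H k := by
    intro V _ G H D c a hD hmad hind hc ha k hk g f hcol
    apply extend G H hind k g f hcol
    let W : Finset V := Finset.univ.filter (fun v => v ∈ H.verts)
    have hW : ∀ v, v ∈ W ↔ v ∈ H.verts := by
      intro v
      simp [W]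
    refine main_totalW D a c (a + c) rfl ha W (eL H.verts k f) (vL H.verts k g)
      (eL_symm H.verts k f) ?_ G (base G H hind k (by omega) g f hcol W hW) ?_ _ G rfl
      (fun _ _ h => h) ?_ (dens_of_ncard G a hmad) ?_
    · intro v hv
      unfold vL
      rw [if_neg (fun h => hv ((hW v).2 h)), Finset.card_range]
      exact hk
    · intro u v _ hu
      unfold eL
      rw [if_neg (fun h => hu ((hW u).2 h.1)), Finset.card_range]
      exact hk
    · intro v
      rw [dg_eq_ncard]
      exact hD v
    · intro v
      have h1 : ((nb G v).filter (fun w => w ∈ W)).card = (G.neighborSet v ∩ H.verts).ncard := by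
        rw [← Set.ncard_coe_finset]
        congr 1
        ext w
        rw [Finset.mem_coe, Finset.mem_filter, mem_nb, hW, Set.mem_inter_iff,
          SimpleGraph.mem_neighborSet]
      rw [h1]
      exact_mod_cast hc v
  refine ⟨?_, main⟩
  intro V _ G H D a hD hmad hH ha
  exact main V G H D 2 a hD hmad hH.isInduced hH.ncard_le (by exact_mod_cast ha)

end Pool.Agent.Results.MP_db9399_co.SparseGraphs
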